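import Pool.Agent.H78.TP.FinG
import Pool.Agent.H78.TP.OpF

/-!
MP_63e0db_al, Q1 for all periodic locally soluble groups `G` and all finite nilpotent subgroups `H`
whose order is divisible by at most two primes and which have a cyclic Sylow subgroup for one of
them, together with the uniform theorem on finite soluble groups from which it is deduced.
-/

namespace H78Old.CyclicSylow

open H78TP

universe u

/-- the general bound for all normal `p'`-subgroups -/
theorem hT (p q : ℕ) [Fact p.Prime] [Fact q.Prime] (n m j : ℕ) : ∃ t, ∀ (F : Type u) [Group F]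
    [Finite F] (P R : Subgroup F), Hyp p q n m j F P R → True → OpT p t F :=
  ⟨hTM p n (hPP q n m j), fun F _ _ P R H _ => opF p q n m j P R H⟩

/-- the theorem on finite groups for fixed primes -/
theorem fixed (p q : ℕ) (hp : p.Prime) (hq : q.Prime) (hne : p ≠ q) (n m j : ℕ) : ∃ h : ℕ,
    ∀ (F : Type u) [Group F] [Finite F] (P R : Subgroup F), Hyp p q n m j F P R →
      lns (⊤ : Subgroup F) h = ⊥ := by
  haveI : Fact p.Prime := ⟨hp⟩
  haveI : Fact q.Prime := ⟨hq⟩
  obtain ⟨h, hh⟩ := ind p q n m hne (fun _ _ => True) (fun _ _ _ _ _ _ _ => trivial)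
    (hT p q n m) n j
  exact ⟨h, fun F _ _ P R hyp => hh F P R hyp trivial hyp.pr.cR⟩

theorem eq_bot_or_le {F : Type*} [Group F] [Finite F] {p n : ℕ} (hp : p.Prime) {P : Subgroup F}
    (hP : IsPGroup p P) (hn : Nat.card P ≤ n) : P = ⊥ ∨ p ≤ n := by
  haveI : Fact p.Prime := ⟨hp⟩
  obtain ⟨e, he⟩ := IsPGroup.iff_card.1 hP
  rcases Nat.eq_zero_or_pos e with h | h
  · left
    rw [h, pow_zero] at he
    exact Subgroup.card_eq_one.1 he
  · right
    calc p ≤ p ^ e := Nat.le_self_pow h.ne' p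
      _ = Nat.card P := he.symm
      _ ≤ n := hn

/-- the primes can be chosen from a bounded set -/
theorem primes {F : Type*} [Group F] [Finite F] {p q n : ℕ} (hp : p.Prime) (hq : q.Prime)
    (hne : p ≠ q) {P R : Subgroup F} (hP : IsPGroup p P) (hR : IsPGroup q R)
    (hPn : Nat.card P ≤ n) (hRn : Nat.card R ≤ n) :
    ∃ p' q' : ℕ, p'.Prime ∧ q'.Prime ∧ p' ≠ q' ∧ p' < n + 4 ∧ q' < n + 4 ∧
      IsPGroup p' P ∧ IsPGroup q' R := by
  have hbot : ∀ s : ℕ, IsPGroup s (⊥ : Subgroup F) := fun s => IsPGroup.of_bot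
  rcases eq_bot_or_le hp hP hPn with h1 | h1
  · rcases eq_bot_or_le hq hR hRn with h2 | h2
    · exact ⟨2, 3, Nat.prime_two, Nat.prime_three, by decide, by omega, by omega,
        h1 ▸ hbot 2, h2 ▸ hbot 3⟩
    · by_cases h3 : q = 2
      · exact ⟨3, q, Nat.prime_three, hq, by omega, by omega, by omega, h1 ▸ hbot 3, hR⟩
      · exact ⟨2, q, Nat.prime_two, hq, by omega, by omega, by omega, h1 ▸ hbot 2, hR⟩
  · rcases eq_bot_or_le hq hR hRn with h2 | h2
    · by_cases h3 : p = 2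
      · exact ⟨p, 3, hp, Nat.prime_three, by omega, by omega, by omega, hP, h2 ▸ hbot 3⟩
      · exact ⟨p, 2, hp, Nat.prime_two, by omega, by omega, by omega, hP, h2 ▸ hbot 2⟩
    · exact ⟨p, q, hp, hq, hne, by omega, by omega, hP, hR⟩

theorem uniform (n m j : ℕ) : ∃ h : ℕ, ∀ (p q : ℕ), p.Prime → q.Prime → p ≠ q →
    ∀ (F : Type u) [Group F] [Finite F] (P R : Subgroup F), Hyp p q n m j F P R →
      lns (⊤ : Subgroup F) h = ⊥ := by
  have key : ∀ p q : ℕ, ∃ h : ℕ, p.Prime → q.Prime → p ≠ q →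
      ∀ (F : Type u) [Group F] [Finite F] (P R : Subgroup F), Hyp p q n m j F P R →
        lns (⊤ : Subgroup F) h = ⊥ := by
    intro p q
    by_cases hpq : p.Prime ∧ q.Prime ∧ p ≠ q
    · obtain ⟨h, hh⟩ := fixed p q hpq.1 hpq.2.1 hpq.2.2 n m j
      exact ⟨h, fun _ _ _ => hh⟩
    · exact ⟨0, fun h1 h2 h3 => absurd ⟨h1, h2, h3⟩ hpq⟩
  choose b hb using key
  refine ⟨∑ p ∈ Finset.range (n + 4), ∑ q ∈ Finset.range (n + 4), b p q, ?_⟩
  intro p q hp hq hne F _ _ P R hyp
  obtain ⟨p', q', hp', hq', hne', hpl, hql, hP', hR'⟩ :=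
    primes hp hq hne hyp.pr.hP hyp.pr.hR hyp.pr.cP hyp.pr.cR
  have h1 := hb p' q' hp' hq' hne' F P R
    ⟨hyp.sol, ⟨hP', hR', hyp.pr.comm, hyp.pr.cP, hyp.pr.cR⟩, hyp.cyc, hyp.kj⟩
  refine lns_of_le ?_ h1
  calc b p' q' ≤ ∑ q ∈ Finset.range (n + 4), b p' q :=
        Finset.single_le_sum (f := fun q => b p' q) (fun _ _ => Nat.zero_le _)
          (Finset.mem_range.2 hql)
    _ ≤ ∑ p ∈ Finset.range (n + 4), ∑ q ∈ Finset.range (n + 4), b p q :=
        Finset.single_le_sum (f := fun p => ∑ q ∈ Finset.range (n + 4), b p q)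
          (fun _ _ => Nat.zero_le _) (Finset.mem_range.2 hpl)

theorem cyclicSylow :
    (∀ p q : ℕ, p.Prime → q.Prime → p ≠ q → ∀ (G : Type u) [Group G] (H : Subgroup G) [Finite H],
      (∀ g : G, IsOfFinOrder g) → LocallySoluble G →
      Group.IsNilpotent H → (∃ a b : ℕ, Nat.card H = p ^ a * q ^ b) →
      (∀ S : Sylow q H, IsCyclic S) →
      IsChernikov (Subgroup.centralizer (H : Set G)) → HasSeries G) ∧
    (∀ n m j : ℕ, ∃ h : ℕ, ∀ p q : ℕ, p.Prime → q.Prime → p ≠ q →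
      ∀ (F : Type u) [Group F] [Finite F] (H : Subgroup F),
      Group.IsSolvable F → Group.IsNilpotent H → (∃ a b : ℕ, Nat.card H = p ^ a * q ^ b) →
      (∀ S : Sylow q H, IsCyclic S) → Nat.card H ≤ n →
      (∀ s : ℕ, s.Prime → RB s (j * s ^ m) (Subgroup.centralizer (H : Set F))) →
      lns (⊤ : Subgroup F) h = ⊥) := by
  constructor
  · intro p q hp hq hne G _ H _ hG hs hnil hcard hcyc hch
    haveI : Fact p.Prime := ⟨hp⟩
    haveI : Fact q.Prime := ⟨hq⟩
    exact finG p q hne (fun _ _ => True) (fun _ _ _ _ _ _ _ => trivial) (hT p q) hG hs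
      (fun _ _ => trivial) H hnil hcard hcyc hch
  · intro n m j
    obtain ⟨h, hh⟩ := uniform.{u} n m j
    refine ⟨h, fun p q hp hq hne F _ _ H hsol hnil hcard hcyc hn hRB => ?_⟩
    haveI : Fact p.Prime := ⟨hp⟩
    haveI : Fact q.Prime := ⟨hq⟩
    obtain ⟨P, R, hP, hR, hcomm, hPR, hRc⟩ := dec H hnil p q hne hcard hcyc
    have hPH : P ≤ H := hPR ▸ le_sup_left
    have hRH : R ≤ H := hPR ▸ le_sup_right
    refine hh p q hp hq hne F P R ⟨hsol, ⟨hP, hR, hcomm, ?_, ?_⟩, hRc, fun s hs => ?_⟩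
    · exact (Nat.le_of_dvd Nat.card_pos (Subgroup.card_dvd_of_le hPH)).trans hn
    · exact (Nat.le_of_dvd Nat.card_pos (Subgroup.card_dvd_of_le hRH)).trans hn
    · refine rb_mono ?_ (hRB s hs)
      intro x hx
      have h1 : P ⊔ R ≤ Subgroup.centralizer ({x} : Set F) := by
        refine sup_le (fun y hy => ?_) (fun y hy => ?_)
        · rw [Subgroup.mem_centralizer_singleton_iff]
          exact Subgroup.mem_centralizer_iff.1 hx.1 y hy
        · rw [Subgroup.mem_centralizer_singleton_iff]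
          exact Subgroup.mem_centralizer_iff.1 hx.2 y hy
      rw [hPR] at h1
      exact Subgroup.mem_centralizer_iff.2 fun y hy =>
        Subgroup.mem_centralizer_singleton_iff.1 (h1 hy)

end H78Old.CyclicSylow
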